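import Pool.Agent.MP_6a4325_al.H84.Spec3

/-!
Additive functions of representations at a twisted regular representation.
-/

set_option autoImplicit false

namespace Pool.Agent.MP_6a4325_al.H67

open Pool.Agent.MP_6a4325_al.H62 Pool.Agent.MP_6a4325_al.H84

variable {k L : Type} [Field k] [Group L]

theorem reg_zero {s : RepFun k L} (hs : AddF s) {M : Type} [AddCommGroup M] [Module k M]
    [Subsingleton M] (ρ : Representation k L M) : s M ρ = 0 := by
  have := hs M M M ρ ρ ρ inferInstance ⟨0, 0, fun _ _ _ => Subsingleton.elim _ _,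
    fun _ => ⟨0, Subsingleton.elim _ _⟩, Subsingleton.elim _ _,
    fun _ _ => Subsingleton.elim _ _, fun _ _ => Subsingleton.elim _ _⟩
  omega

theorem reg_bij {s : RepFun k L} (hs : AddF s) {M N : Type} [AddCommGroup M] [Module k M]
    [AddCommGroup N] [Module k N] [FiniteDimensional k N] (ρ : Representation k L M)
    (σ : Representation k L N) (f : M →ₗ[k] N) (hf : Function.Bijective f)
    (he : Eqv (MonoidHom.id L) ρ σ f) : s M ρ = s N σ := by
  have := hs M N PUnit ρ σ 1 inferInstance ⟨f, 0, hf.1, fun _ => ⟨0, Subsingleton.elim _ _⟩,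
    by rw [LinearMap.range_eq_top.2 hf.2, LinearMap.ker_zero], he,
    fun _ _ => Subsingleton.elim _ _⟩
  rw [this, reg_zero hs (M := PUnit), add_zero]

/-- Several copies of the regular representation. -/
def regN (k L : Type) [Field k] [Group L] (t : ℕ) : Representation k L (Fin t → L → k) where
  toFun g := (reg k L g).compLeft (Fin t)
  map_one' := LinearMap.ext fun f => funext fun i => funext fun x => congrArg (f i) (mul_one x)
  map_mul' g h := LinearMap.ext fun f => funext fun i => funext fun x =>
    congrArg (f i) (mul_assoc x g h).symm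

theorem regN_val [Finite L] {s : RepFun k L} (hs : AddF s) (t : ℕ) :
    s (Fin t → L → k) (regN k L t) = t * s (L → k) (reg k L) := by
  induction t with
  | zero => rw [reg_zero hs, zero_mul]
  | succ t ih =>
    rw [hs (L → k) (Fin (t + 1) → L → k) (Fin t → L → k) (reg k L) (regN k L (t + 1))
      (regN k L t) inferInstance ⟨LinearMap.single k (fun _ => L → k) 0,
        LinearMap.funLeft k (L → k) Fin.succ, fun _ _ h => congrFun h 0,
        LinearMap.funLeft_surjective_of_injective _ _ _ (Fin.succ_injective t), ?_, ?_,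
        fun _ _ => rfl⟩, ih]
    · ring
    · ext F
      constructor
      · rintro ⟨u, rfl⟩
        ext i x
        simp [LinearMap.funLeft_apply]
      · intro h
        refine ⟨F 0, funext fun i => ?_⟩
        refine Fin.cases (by simp) (fun j => ?_) i
        have := congrFun (LinearMap.mem_ker.1 h) j
        simpa [LinearMap.funLeft_apply] using this.symm
    · intro g u
      funext i
      refine Fin.cases rfl (fun j => rfl) i

theorem sreg : SReg := by
  intro k L T _ _ _ _ _ τ s hT hs
  let b := Module.finBasis k T
  let Θ : (T →ₗ[k] (L → k)) →ₗ[k] (Fin (Module.finrank k T) → L → k) :=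
    { toFun := fun φ i x => φ (τ x⁻¹ (b i)) x
      map_add' := fun _ _ => rfl
      map_smul' := fun _ _ => rfl }
  have hi : Function.Injective Θ := by
    refine (injective_iff_map_eq_zero Θ).2 fun φ h => LinearMap.ext fun w => funext fun x => ?_
    have h1 : (LinearMap.proj x : (L → k) →ₗ[k] k) ∘ₗ φ ∘ₗ τ x⁻¹ = 0 :=
      b.ext fun i => congrFun (congrFun h i) x
    have h2 := LinearMap.congr_fun h1 (τ x w)
    simpa using h2
  have hd : Module.finrank k (T →ₗ[k] (L → k)) =
      Module.finrank k (Fin (Module.finrank k T) → L → k) := by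
    rw [Module.finrank_linearMap, Module.finrank_pi_fintype k (ι := Fin (Module.finrank k T))]
    simp
  rw [← regN_val hs]
  refine reg_bij hs _ _ Θ
    ⟨hi, (LinearMap.injective_iff_surjective_of_finrank_eq_finrank hd).1 hi⟩ fun g φ => ?_
  funext i x
  change φ (τ g⁻¹ (τ x⁻¹ (b i))) (x * g) = φ (τ (x * g)⁻¹ (b i)) (x * g)
  rw [mul_inv_rev, map_mul]
  rfl

end Pool.Agent.MP_6a4325_al.H67
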